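import Mathlib
import Pool.Agent.H123Z.GSC.Defs

set_option autoImplicit false
set_option linter.all false

namespace Pool.Agent.H123Z.GSC

open Finset

namespace H161C

variable {ι G : Type} [Fintype ι] [DecidableEq ι] [Group G] [Fintype G]

theorem rep_conj (g h : G) : rep (h * g * h⁻¹) = rep g := by
  have h1 : ConjClasses.mk (h * g * h⁻¹) = ConjClasses.mk g := by
    rw [ConjClasses.mk_eq_mk_iff_isConj]
    exact (isConj_iff.2 ⟨h, rfl⟩).symm
  unfold rep
  rw [h1]

theorem rep_spec (g : G) : ∃ h : G, rep g = h⁻¹ * g * h := by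
  have h1 : ConjClasses.mk (rep g) = ConjClasses.mk g := Quotient.out_eq _
  rw [ConjClasses.mk_eq_mk_iff_isConj] at h1
  obtain ⟨c, hc⟩ := isConj_iff.1 h1
  refine ⟨c, ?_⟩
  calc rep g = c⁻¹ * (c * rep g * c⁻¹) * c := by group
    _ = c⁻¹ * g * c := by rw [hc]

theorem kap_apply (x : MonoidAlgebra ℝ G) :
    kap G x = ∑ g, MonoidAlgebra.single (rep g) (x.coeff g) := rfl

theorem kap_single (g : G) (r : ℝ) :
    kap G (MonoidAlgebra.single g r) = MonoidAlgebra.single (rep g) r := by
  classical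
  rw [kap_apply, Finset.sum_eq_single g]
  · simp
  · intro b _ hb
    simp [Finsupp.single_apply, hb.symm]
  · intro h; exact absurd (Finset.mem_univ g) h

theorem sum_single {k : Type} [CommRing k] (x : MonoidAlgebra k G) :
    ∑ g, MonoidAlgebra.single g (x.coeff g) = x := by
  classical
  ext g
  simp [Finsupp.single_apply]

theorem kap_comm (x y : MonoidAlgebra ℝ G) : kap G (x * y) = kap G (y * x) := by
  rw [← sum_single x, ← sum_single y]
  simp only [Finset.sum_mul, Finset.mul_sum, map_sum, MonoidAlgebra.single_mul_single, kap_single]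
  rw [Finset.sum_comm]
  refine Finset.sum_congr rfl fun a _ => Finset.sum_congr rfl fun b _ => ?_
  have : rep (a * b) = rep (b * a) := by
    have := rep_conj (b * a) a
    rw [← this]
    congr 1
    group
  rw [this, mul_comm (x.coeff a)]

theorem ctr_apply (o : ι) (X : MA ι G) :
    ctr G o X = Matrix.single o o (kap G (Matrix.trace X)) := rfl

theorem ctr_comm (o : ι) (x y : MA ι G) : ctr G o (x * y) = ctr G o (y * x) := by
  rw [ctr_apply, ctr_apply]
  congr 1
  simp only [Matrix.trace, Matrix.diag, Matrix.mul_apply, map_sum]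
  rw [Finset.sum_comm]
  exact Finset.sum_congr rfl fun a _ => Finset.sum_congr rfl fun b _ => kap_comm _ _

theorem nug_single (g : G) (r : ℝ) : nug (MonoidAlgebra.single g r) = |r| := by
  classical
  unfold nug
  rw [Finset.sum_eq_single g]
  · simp
  · intro b _ hb
    simp [Finsupp.single_apply, hb.symm]
  · intro h; exact absurd (Finset.mem_univ g) h

theorem nug_kap (x : MonoidAlgebra ℝ G) : nug (kap G x) ≤ nug x := by
  rw [kap_apply]
  refine (nug_sum _ _).trans (le_of_eq ?_)
  simp only [nug_single]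
  rfl

theorem norm_single (i j : ι) (a : MonoidAlgebra ℝ G) :
    ‖(Matrix.single i j a : MA ι G)‖ = nug a := by
  rw [norm_def, Finset.sum_eq_single i, Finset.sum_eq_single j]
  · simp
  · intro b _ hb
    rw [Matrix.single_apply_of_col_ne _ _ hb.symm, nug_zero]
  · intro h; exact absurd (Finset.mem_univ j) h
  · intro b _ hb
    refine Finset.sum_eq_zero fun c _ => ?_
    rw [Matrix.single_apply_of_row_ne hb.symm, nug_zero]
  · intro h; exact absurd (Finset.mem_univ i) h

theorem norm_ctr (o : ι) (x : MA ι G) : ‖ctr G o x‖ ≤ ‖x‖ := by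
  rw [ctr_apply, norm_single]
  refine (nug_kap _).trans ?_
  unfold Matrix.trace
  refine (nug_sum _ _).trans ?_
  rw [norm_def]
  refine Finset.sum_le_sum fun i _ => ?_
  exact Finset.single_le_sum (f := fun j => nug (x i j)) (fun j _ => nug_nonneg _)
    (Finset.mem_univ i)

theorem coeff_le (x : MA ι G) (i j : ι) (g : G) : |(x i j).coeff g| ≤ ‖x‖ := by
  rw [norm_def]
  have h1 : |(x i j).coeff g| ≤ nug (x i j) :=
    Finset.single_le_sum (f := fun g => |(x i j).coeff g|) (fun _ _ => abs_nonneg _)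
      (Finset.mem_univ g)
  have h2 : nug (x i j) ≤ ∑ j, nug (x i j) :=
    Finset.single_le_sum (f := fun j => nug (x i j)) (fun j _ => nug_nonneg _)
      (Finset.mem_univ j)
  have h3 : ∑ j, nug (x i j) ≤ ∑ i, ∑ j, nug (x i j) :=
    Finset.single_le_sum (f := fun i => ∑ j, nug (x i j))
      (fun i _ => Finset.sum_nonneg fun j _ => nug_nonneg _) (Finset.mem_univ i)
  linarith

theorem toR_inj : Function.Injective (toR : MZ ι G →+* MA ι G) := by
  intro A B h
  ext i j g
  have h1 := toR_coeff A i j g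
  rw [h, toR_coeff] at h1
  exact_mod_cast h1.symm

theorem mem_range (x : MA ι G) :
    x ∈ (toR : MZ ι G →+* MA ι G).range ↔ ∀ i j g, ∃ z : ℤ, (x i j).coeff g = z := by
  classical
  constructor
  · rintro ⟨A, rfl⟩ i j g
    exact ⟨_, toR_coeff A i j g⟩
  · intro h
    choose z hz using h
    refine ⟨fun i j => ∑ g, MonoidAlgebra.single g (z i j g), ?_⟩
    ext i j g
    rw [toR_coeff, hz]
    simp [Finsupp.single_apply]

theorem trace_toR (A : MZ ι G) :
    Matrix.trace (toR A) = MonoidAlgebra.mapRingHom G (Int.castRingHom ℝ) (Matrix.trace A) := by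
  unfold Matrix.trace
  rw [map_sum]
  rfl

theorem ctr_trace (o : ι) (A B : MZ ι G) (h : Matrix.trace A - Matrix.trace B ∈ AddSubgroup.closure
        {x : MonoidAlgebra ℤ G | ∃ g h : G,
          x = MonoidAlgebra.of ℤ G g - MonoidAlgebra.of ℤ G (h * g * h⁻¹)}) :
    ctr G o (toR A) = ctr G o (toR B) := by
  let φ : MonoidAlgebra ℤ G →+ MonoidAlgebra ℝ G :=
    (kap G).toAddMonoidHom.comp (MonoidAlgebra.mapRingHom G (Int.castRingHom ℝ)).toAddMonoidHom
  have hφ : ∀ x, φ x = kap G (MonoidAlgebra.mapRingHom G (Int.castRingHom ℝ) x) := fun _ => rfl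
  have hle : AddSubgroup.closure
        {x : MonoidAlgebra ℤ G | ∃ g h : G,
          x = MonoidAlgebra.of ℤ G g - MonoidAlgebra.of ℤ G (h * g * h⁻¹)} ≤ φ.ker := by
    rw [AddSubgroup.closure_le]
    rintro x ⟨g, h, rfl⟩
    show φ _ = 0
    rw [map_sub, hφ, hφ]
    simp [kap_single, rep_conj]
  have h1 : φ (Matrix.trace A - Matrix.trace B) = 0 := hle h
  rw [map_sub, sub_eq_zero, hφ, hφ] at h1
  rw [ctr_apply, ctr_apply, trace_toR, trace_toR, h1]

/-- elementary matrices -/
noncomputable def E (i j : ι) (g : G) : MA ι G := Matrix.single i j (MonoidAlgebra.single g 1)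

theorem E_mul (i j k : ι) (a b : G) : (E i j a : MA ι G) * E j k b = E i k (a * b) := by
  unfold E
  rw [Matrix.single_mul_single_same, MonoidAlgebra.single_mul_single, one_mul]

theorem E_mul_ne (i j k l : ι) (a b : G) (h : j ≠ k) : (E i j a : MA ι G) * E k l b = 0 := by
  unfold E
  rw [Matrix.single_mul_single_of_ne _ _ _ _ h]

theorem E_range (i j : ι) (g : G) : (E i j g : MA ι G) ∈ (toR : MZ ι G →+* MA ι G).range := by
  classical
  rw [mem_range]
  intro a b c
  unfold E
  by_cases h : i = a ∧ j = b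
  · obtain ⟨rfl, rfl⟩ := h
    by_cases hc : g = c
    · exact ⟨1, by simp [hc]⟩
    · exact ⟨0, by simp [Finsupp.single_apply, hc]⟩
  · exact ⟨0, by rw [Matrix.single_apply_of_ne _ _ _ _ _ h]; simp⟩

theorem ctr_E_ne (o i j : ι) (g : G) (h : i ≠ j) : ctr G o (E i j g) = 0 := by
  rw [ctr_apply]
  unfold E
  rw [Matrix.trace_single_eq_of_ne _ _ _ h]
  simp

/-- the generating set -/
def Gen (G : Type) [Group G] [Fintype G] (o : ι) : Set (MA ι G) :=
  {n : MA ι G | n ∈ (toR : MZ ι G →+* MA ι G).range ∧ n * n = 0 ∧ ctr G o n = 0}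

theorem E_gen (o i j : ι) (g : G) (h : i ≠ j) : (E i j g : MA ι G) ∈ Gen G o :=
  ⟨E_range i j g, E_mul_ne _ _ _ _ _ _ h.symm, ctr_E_ne o i j g h⟩

theorem diag_mem (o i j : ι) (a b : G) (h : i ≠ j) :
    (E i i (a * b) : MA ι G) - E j j (b * a) ∈ AddSubgroup.closure (Gen G o) := by
  set x : MA ι G := E i j a with hx
  set z : MA ι G := E j i b with hz
  have hxx : x * x = 0 := E_mul_ne _ _ _ _ _ _ h.symm
  have hzz : z * z = 0 := E_mul_ne _ _ _ _ _ _ h
  have h1 : (1 - z) * (1 + z) = 1 := by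
    rw [sub_mul, mul_add, mul_add, hzz]; simp
  have hx' : (1 + z) * x * (1 - z) ∈ Gen G o := by
    refine ⟨?_, ?_, ?_⟩
    · exact Subring.mul_mem _ (Subring.mul_mem _ (Subring.add_mem _ (Subring.one_mem _)
        (E_range _ _ _)) (E_range _ _ _)) (Subring.sub_mem _ (Subring.one_mem _) (E_range _ _ _))
    · calc (1 + z) * x * (1 - z) * ((1 + z) * x * (1 - z))
          = (1 + z) * x * ((1 - z) * (1 + z)) * x * (1 - z) := by simp only [mul_assoc]
        _ = (1 + z) * (x * x) * (1 - z) := by rw [h1]; simp only [mul_assoc, one_mul]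
        _ = 0 := by rw [hxx]; simp
    · rw [ctr_comm, ← mul_assoc, h1, one_mul]
      exact ctr_E_ne o i j a h
  have hzxz : z * x * z ∈ Gen G o := by
    rw [hz, hx, E_mul, E_mul]
    exact E_gen o j i _ h.symm
  have e : (E i i (a * b) : MA ι G) - E j j (b * a) = x - z * x * z - (1 + z) * x * (1 - z) := by
    rw [← E_mul i j i, ← E_mul j i j, ← hx, ← hz]
    noncomm_ring
  rw [e]
  exact AddSubgroup.sub_mem _ (AddSubgroup.sub_mem _
    (AddSubgroup.subset_closure (E_gen o i j a h)) (AddSubgroup.subset_closure hzxz))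
    (AddSubgroup.subset_closure hx')

theorem diag_rep (o i : ι) (g : G) (h : i ≠ o) :
    (E i i g : MA ι G) - E o o (rep g) ∈ AddSubgroup.closure (Gen G o) := by
  obtain ⟨c, hc⟩ := rep_spec g
  have := diag_mem o i o (g * c) c⁻¹ h
  rw [hc]
  have e1 : g * c * c⁻¹ = g := by group
  have e2 : c⁻¹ * (g * c) = c⁻¹ * g * c := by group
  rwa [e1, e2] at this

/-- the coordinate vectors -/
noncomputable def mm (o : ι) (i : ι × ι × G) : MA ι G :=
  E i.1 i.2.1 i.2.2 - if i.1 = i.2.1 then E o o (rep i.2.2) else 0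

theorem mm_mem (o o' : ι) (h : o ≠ o') (i : ι × ι × G) :
    mm o i ∈ AddSubgroup.closure (Gen G o) := by
  obtain ⟨i, j, g⟩ := i
  unfold mm
  by_cases hij : i = j
  · subst hij
    simp only [if_true]
    by_cases hio : i = o
    · subst hio
      have h1 := diag_mem i i o' g 1 h
      have h2 := diag_rep i o' g h.symm
      rw [mul_one, one_mul] at h1
      have := AddSubgroup.add_mem _ h1 h2
      rwa [sub_add_sub_cancel] at this
    · exact diag_rep o i g hio
  · simp only [hij, if_false, sub_zero]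
    exact AddSubgroup.subset_closure (E_gen o i j g hij)

theorem smul_E (i j : ι) (g : G) (r : ℝ) :
    r • (E i j g : MA ι G) = Matrix.single i j (MonoidAlgebra.single g r) := by
  unfold E
  rw [Matrix.smul_single]
  simp

theorem single_sum {κ : Type} (s : Finset κ) (i j : ι) (f : κ → MonoidAlgebra ℝ G) :
    (Matrix.single i j (∑ k ∈ s, f k) : MA ι G) = ∑ k ∈ s, Matrix.single i j (f k) :=
  map_sum (Matrix.singleAddMonoidHom (α := MonoidAlgebra ℝ G) i j) f s

theorem decomp (o : ι) (x : MA ι G) :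
    x = ctr G o x + ∑ i : ι × ι × G, (x i.1 i.2.1).coeff i.2.2 • mm o i := by
  have h1 : ∑ i : ι × ι × G, (x i.1 i.2.1).coeff i.2.2 • (E i.1 i.2.1 i.2.2 : MA ι G) = x := by
    simp only [Fintype.sum_prod_type, smul_E]
    conv_rhs => rw [Matrix.matrix_eq_sum_single x]
    refine Finset.sum_congr rfl fun i _ => Finset.sum_congr rfl fun j _ => ?_
    conv_rhs => rw [← sum_single (x i j)]
    exact (single_sum _ i j _).symm
  have h2 : ∑ i : ι × ι × G, (x i.1 i.2.1).coeff i.2.2 •
      (if i.1 = i.2.1 then (E o o (rep i.2.2) : MA ι G) else 0) = ctr G o x := by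
    simp only [Fintype.sum_prod_type]
    rw [ctr_apply]
    unfold Matrix.trace
    rw [map_sum]
    rw [single_sum]
    refine Finset.sum_congr rfl fun i _ => ?_
    rw [Finset.sum_eq_single i]
    · simp only [if_true, smul_E, Matrix.diag]
      rw [kap_apply]
      exact (single_sum _ o o _).symm
    · intro b _ hb
      simp [hb.symm]
    · intro h; exact absurd (Finset.mem_univ i) h
  unfold mm
  simp only [smul_sub, Finset.sum_sub_distrib]
  rw [h1, h2]
  abel

end H161C

theorem coords {ι G : Type} [Fintype ι] [DecidableEq ι] [Group G] [Fintype G] (o o' : ι) (h : o ≠ o') :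
    (∀ x y : MA ι G, ctr G o (x * y) = ctr G o (y * x)) ∧ (∀ x : MA ι G, ‖ctr G o x‖ ≤ ‖x‖) ∧
    (∀ (x : MA ι G) (i : ι × ι × G), |(x i.1 i.2.1).coeff i.2.2| ≤ ‖x‖) ∧
    Function.Injective (toR : MZ ι G →+* MA ι G) ∧
    (∀ x : MA ι G, x ∈ (toR : MZ ι G →+* MA ι G).range ↔ ∀ i j g, ∃ z : ℤ, (x i j).coeff g = z) ∧
    (∀ A B : MZ ι G, Matrix.trace A - Matrix.trace B ∈ AddSubgroup.closure
        {x : MonoidAlgebra ℤ G | ∃ g h : G,
          x = MonoidAlgebra.of ℤ G g - MonoidAlgebra.of ℤ G (h * g * h⁻¹)} →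
      ctr G o (toR A) = ctr G o (toR B)) ∧
    ∃ m : ι × ι × G → MA ι G,
      (∀ x : MA ι G, x = ctr G o x + ∑ i : ι × ι × G, (x i.1 i.2.1).coeff i.2.2 • m i) ∧
      ∀ i, m i ∈ AddSubgroup.closure
        {n : MA ι G | n ∈ (toR : MZ ι G →+* MA ι G).range ∧ n * n = 0 ∧ ctr G o n = 0} :=
  ⟨H161C.ctr_comm o, H161C.norm_ctr o, fun x i => H161C.coeff_le x i.1 i.2.1 i.2.2,
    H161C.toR_inj, H161C.mem_range, H161C.ctr_trace o,
    H161C.mm o, H161C.decomp o, H161C.mm_mem o o' h⟩

end Pool.Agent.H123Z.GSC
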